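import Pool.Agent.K3h70.AC.Defs
import Pool.Agent.K3h8.SF.Defs
import Pool.Agent.K3h42.SM.Main

/-!
# Test objects for homologically trivial cycles: definitions
-/

set_option autoImplicit false

open CategoryTheory Limits MonoidalCategory
open Pool.Agent.Y112.SR Pool.Agent.Y112.KD Pool.Agent.R905 Pool.Agent.K3h8.GG
open Pool.Agent.Y112.SC (IsSchurSummand)
open Pool.Agent.K3h42.SM (IsSumOf)
open Pool.Agent.K3h8.SF (Built)

noncomputable section

namespace Pool.Agent.K3h30.TO

universe v u w

variable {C : Type u} [Category.{v} C] [Preadditive C] [Linear ℚ C] [MonoidalCategory C]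
  [SymmetricCategory C] {K : Type w} [Field K]

/-- `P` is the direct summand `(M ⊗ M^∨)^G` of `M ⊗ M^∨`, for the action `ρ` of the finite group `G` on
`M`, with inclusion `j` and projection `q`: the composite `q ≫ j` is the projector
`(1 / |G|) ∑ g ⊗ (g⁻¹)^∨`. (For `M = h(X)` and a finite group of automorphisms of `X` this is a Tate
twist of the motive of the quotient of `X × X` by the diagonal action.) -/
structure IsDiagonalInvariants [RightRigidCategory C] {G : Type} [Group G] [Fintype G] {M P : C}
    (ρ : G →* End M) (j : P ⟶ M ⊗ Mᘁ) (q : M ⊗ Mᘁ ⟶ P) : Prop where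
  one : j ≫ q = 𝟙 P
  proj : q ≫ j = (Fintype.card G : ℚ)⁻¹ •
    ∑ g : G, (((ρ g : End M) : M ⟶ M) ⊗ₘ (((ρ g⁻¹ : End M) : M ⟶ M)ᘁ))

/-- `T` is a test object for `M`: it is obtained from `M` by finitely many steps, each of which is
* a step from `S` to an object built from `S` by nonzero Schur functors, symmetric and exterior powers,
  nonzero tensor products with arbitrary objects, and passing to larger objects (`Built`), or
* a step from `S` to `(S ⊗ S^∨)^G` for an action of a finite group `G` on `S`. -/
inductive IsTest [RightRigidCategory C] (M : C) : C → Prop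
  | base : IsTest M M
  | built {S T : C} : IsTest M S → Built S T → IsTest M T
  | quotient {S T : C} (G : Type) [Group G] [Fintype G] (ρ : G →* End S) (j : T ⟶ S ⊗ Sᘁ)
      (q : S ⊗ Sᘁ ⟶ T) : IsTest M S → IsDiagonalInvariants ρ j q → IsTest M T

/-- `T` is a nonzero value of iterated Schur functors on `M`: it is obtained from `M` by finitely many
steps from an object `S` to a nonzero direct summand of `S ⊗ ⋯ ⊗ S` (`n ≥ 1` factors) which is cut out
by an idempotent of the image of the group algebra `ℚ[S_n]`. -/
inductive SchurChain (M : C) : C → Prop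
  | base : SchurChain M M
  | step {T T' : C} (n : ℕ) : SchurChain M T → 1 ≤ n → IsSchurSummand T T' n → ¬ IsZero T' →
      SchurChain M T'

/-- The realisation of `T` is purely even or purely odd, of dimension `b` say, and for one
`n ≤ 2 b + 3` the `n!` permutations of the factors of `T ⊗ ⋯ ⊗ T` (`n` factors) are linearly
dependent. -/
def HasRelation (R : SuperRealisation C K) (T : C) : Prop :=
  ∃ d : ℚ, (d = 1 ∨ d = -1) ∧ R.par T = (d : K) • 𝟙 _ ∧
    ∃ n, n ≤ 2 * realDim R T + 3 ∧ permDim T n < n.factorial

/-- The realisation of `T` is purely even or purely odd, of dimension `b` say, and for infinitely many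
`n` the permutations of the factors of `T ⊗ ⋯ ⊗ T` (`n` factors) span a space of dimension at most
`D β ^ n`, for some `D` and some `β < (b + 2) ^ 2`. -/
def HasSlowPermutations (R : SuperRealisation C K) (T : C) : Prop :=
  ∃ d : ℚ, (d = 1 ∨ d = -1) ∧ R.par T = (d : K) • 𝟙 _ ∧
    ∃ β D : ℝ, 0 ≤ β ∧ β < ((realDim R T : ℝ) + 2) ^ 2 ∧
      ∃ᶠ n : ℕ in Filter.atTop, (permDim T n : ℝ) ≤ D * β ^ n

/-- The identity of `T` is a finite sum of compositions `T ⟶ N i ⟶ N' i ⟶ T`, with arbitrary objects
`N i`, `N' i`, whose middle factors have a vanishing exterior or a vanishing symmetric power. -/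
def HasSmallSum (T : C) : Prop :=
  ∃ r s : ℕ, ∃ x y : T ⟶ T, x + y = 𝟙 T ∧ IsSumOf (-1) x r ∧ IsSumOf 1 y s

end Pool.Agent.K3h30.TO
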