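import Pool.Agent.K3h70.AC.Main
import Pool.Agent.K3h8.SF.Main
import Pool.Agent.K3h63.IQ.Final2
import Pool.Agent.K3h30.TO.Defs

/-!
# Test objects for homologically trivial cycles
-/

set_option autoImplicit false
set_option linter.unusedSectionVars false

open CategoryTheory Limits MonoidalCategory
open Pool.Agent.Y112.SR Pool.Agent.Y112.KD Pool.Agent.R905 Pool.Agent.K3h8.GG Pool.Agent.K3h70.AC
open Pool.Agent.Y112.SC (IsSchurSummand)
open Pool.Agent.K3h8.SF (Built kimura_of_built)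

noncomputable section

namespace Pool.Agent.K3h30.TO

universe v u w

variable {C : Type u} [Category.{v} C] [Preadditive C] [Linear ℚ C] [MonoidalCategory C]
  [MonoidalPreadditive C] [MonoidalLinear ℚ C] [SymmetricCategory C] [RightRigidCategory C]
  [IsIdempotentComplete C] {K : Type w} [Field K] {R : SuperRealisation C K}

variable (R) in
include R in
/-- Kimura-finiteness descends from test objects. -/
theorem kimura_of_test (hU : UnitQ C) {M T : C} (hT : IsTest M T) (h : IsKimuraFinite T) :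
    IsKimuraFinite M := by
  induction hT with
  | base => exact h
  | built _ hb ih => exact ih (kimura_of_built R hU hb h)
  | quotient G ρ j q _ hI ih =>
    exact ih (Pool.Agent.K3h63.IQ.final2 R hU (ρ := ρ) (j := j) (q := q) ⟨hI.one, hI.proj⟩
      (𝟙 _) (𝟙 _) (Category.comp_id _) h)

theorem SchurChain.built {M T : C} (h : SchurChain M T) : Built M T := by
  induction h with
  | base => exact Built.base
  | step n _ hn hs h0 ih => exact Built.schur n ih hn hs h0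

theorem SchurChain.par {M T : C} (hM : R.par M = 𝟙 _) (h : SchurChain M T) : R.par T = 𝟙 _ := by
  induction h with
  | base => exact hM
  | @step T T' n _ hn hs h0 ih =>
    obtain ⟨i, r, hir, -⟩ := hs
    have h1 : R.par T = (1 : K) • 𝟙 _ := by rw [ih, one_smul]
    have h2 := Pool.Agent.K3h8.KS.par_tp R h1 n
    rw [one_pow, one_smul] at h2
    have h3 : R.H.map i ≫ R.H.map r = 𝟙 _ := by rw [← Functor.map_comp, hir, CategoryTheory.Functor.map_id]
    have h4 := R.par_natural i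
    calc R.par T' = R.par T' ≫ R.H.map i ≫ R.H.map r := by rw [h3, Category.comp_id]
      _ = (R.H.map i ≫ R.par (tp T n)) ≫ R.H.map r := by rw [h4, Category.assoc]
      _ = 𝟙 _ := by rw [h2, Category.comp_id, h3]

lemma Split.retract {𝒯 : C → Prop} {X Y : C} (hX : Split 𝒯 X) (i : Y ⟶ X) (r : X ⟶ Y)
    (hir : i ≫ r = 𝟙 Y) : Split 𝒯 Y := by
  obtain ⟨ι, _, T, α, β, hT, h1⟩ := hX
  refine ⟨ι, inferInstance, T, fun j => α j ≫ r, fun j => i ≫ β j, hT, ?_⟩
  calc ∑ j, (i ≫ β j) ≫ α j ≫ r = i ≫ (∑ j, β j ≫ α j) ≫ r := by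
        rw [Preadditive.sum_comp, Preadditive.comp_sum]
        exact Finset.sum_congr rfl fun j _ => by simp only [Category.assoc]
    _ = 𝟙 Y := by rw [h1, Category.id_comp, hir]

theorem SchurChain.split {𝒯 : C → Prop} (h𝒯 : IsTate R 𝒯) {M T : C} (hM : Split 𝒯 M)
    (h : SchurChain M T) : Split 𝒯 T := by
  induction h with
  | base => exact hM
  | @step T T' n _ hn hs h0 ih =>
    obtain ⟨i, r, hir, -⟩ := hs
    exact Split.retract (Split.tp h𝒯.unit h𝒯.tensor ih n) i r hir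

theorem inj_of_split {M : C} {𝒯 : C → Prop} (h𝒯 : IsTate R 𝒯) (hS : Split 𝒯 M) :
    AllPowersInjective R 𝒯 M := by
  intro m n S T hS' hT' f hf
  exact Split.eq_zero R h𝒯.faithful (Split.tensor h𝒯.tensor (Split.of hS') (Split.tp h𝒯.unit h𝒯.tensor hS m))
    (Split.tensor h𝒯.tensor (Split.of hT') (Split.tp h𝒯.unit h𝒯.tensor hS n)) f hf

theorem kimura_of_inj (hU : UnitQ C) {M : C} (hM : R.par M = 𝟙 _) {𝒯 : C → Prop} (h𝒯 : IsTate R 𝒯)
    (h : AllPowersInjective R 𝒯 M) : IsKimuraFinite M :=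
  kimura_of_slow hU hM (slow_of_inj h𝒯 h)

/-- `CH_hom` vanishes on all powers if and only if the object is Kimura-finite. -/
theorem inj_iff (hU : UnitQ C) {M : C} (hM : R.par M = 𝟙 _) {𝒯 : C → Prop} (h𝒯 : IsTate R 𝒯)
    (hA : AlgebraicCohomology R 𝒯 M) : AllPowersInjective R 𝒯 M ↔ IsKimuraFinite M :=
  ⟨kimura_of_inj hU hM h𝒯, inj_of_kimura hU h𝒯 hA⟩

theorem kimura_of_relation (hU : UnitQ C) {T : C} (h : HasRelation R T) : IsKimuraFinite T := by
  obtain ⟨d, hd, hT, n, h1, h2⟩ := h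
  exact (final R hU hd hT).2.1 n h1 h2

theorem relation_of_kimura (hU : UnitQ C) {T : C} (hT : R.par T = 𝟙 _) (h : IsKimuraFinite T) :
    HasRelation R T := by
  have hT' : R.par T = ((1 : ℚ) : K) • 𝟙 _ := by rw [hT, Rat.cast_one, one_smul]
  exact ⟨1, Or.inl rfl, hT', realDim R T + 1, by omega, (final R hU (Or.inl rfl) hT').1 h⟩

theorem kimura_of_slowPerm (hU : UnitQ C) {T : C} (h : HasSlowPermutations R T) :
    IsKimuraFinite T := by
  obtain ⟨d, hd, hT, β, D, h0, h1, h2⟩ := h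
  exact (final R hU hd hT).2.2.2.2 β D h0 h1 h2

theorem slowPerm_of_kimura (hU : UnitQ C) {T : C} (hT : R.par T = 𝟙 _) (h : IsKimuraFinite T) :
    HasSlowPermutations R T := by
  have hT' : R.par T = ((1 : ℚ) : K) • 𝟙 _ := by rw [hT, Rat.cast_one, one_smul]
  refine ⟨1, Or.inl rfl, hT', (realDim R T : ℝ) ^ 2, 1, by positivity, ?_,
    Filter.Frequently.of_forall fun n => ?_⟩
  · have : (0 : ℝ) ≤ realDim R T := Nat.cast_nonneg _
    nlinarith
  · have := (final R hU (Or.inl rfl) hT').2.2.1 h n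
    rw [one_mul, ← pow_mul]
    exact_mod_cast this

theorem smallSum_iff (hU : UnitQ C) {T : C} : IsKimuraFinite T ↔ HasSmallSum T :=
  Pool.Agent.K3h42.SM.kimura_iff hU T

/-- All test objects. -/
theorem tests (hU : UnitQ C) {M : C} (hM : R.par M = 𝟙 _) {𝒯 : C → Prop} (h𝒯 : IsTate R 𝒯)
    (hA : AlgebraicCohomology R 𝒯 M) :
    (AllPowersInjective R 𝒯 M ↔ ∃ T, IsTest M T ∧ IsKimuraFinite T) ∧
    (AllPowersInjective R 𝒯 M ↔ ∃ T, IsTest M T ∧ HasSmallSum T) ∧
    (AllPowersInjective R 𝒯 M ↔ ∃ T, IsTest M T ∧ HasRelation R T) ∧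
    (AllPowersInjective R 𝒯 M ↔ ∃ T, IsTest M T ∧ HasSlowPermutations R T) := by
  have h1 := inj_iff hU hM h𝒯 hA
  refine ⟨⟨fun h => ⟨M, IsTest.base, h1.1 h⟩, fun ⟨T, hT, h⟩ => h1.2 (kimura_of_test R hU hT h)⟩,
    ⟨fun h => ⟨M, IsTest.base, (smallSum_iff hU).1 (h1.1 h)⟩,
      fun ⟨T, hT, h⟩ => h1.2 (kimura_of_test R hU hT ((smallSum_iff hU).2 h))⟩,
    ⟨fun h => ⟨M, IsTest.base, relation_of_kimura hU hM (h1.1 h)⟩,
      fun ⟨T, hT, h⟩ => h1.2 (kimura_of_test R hU hT (kimura_of_relation hU h))⟩,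
    ⟨fun h => ⟨M, IsTest.base, slowPerm_of_kimura hU hM (h1.1 h)⟩,
      fun ⟨T, hT, h⟩ => h1.2 (kimura_of_test R hU hT (kimura_of_slowPerm hU h))⟩⟩

theorem split_of_inj {M : C} {𝒯 : C → Prop} (hU : UnitQ C) (hM : R.par M = 𝟙 _) (h𝒯 : IsTate R 𝒯)
    (hA : AlgebraicCohomology R 𝒯 M) (h : AllPowersInjective R 𝒯 M) : Split 𝒯 M :=
  split_of_homNil ((kimura_of_inj hU hM h𝒯 h).homNil R hU) hA

/-- Values of Schur functors. -/
theorem chain_iff (hU : UnitQ C) {M : C} (hM : R.par M = 𝟙 _) {𝒯 : C → Prop} (h𝒯 : IsTate R 𝒯)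
    (hA : AlgebraicCohomology R 𝒯 M) {T : C} (hT : SchurChain M T) :
    (AllPowersInjective R 𝒯 M ↔ AllPowersInjective R 𝒯 T) ∧
    (AllPowersInjective R 𝒯 M ↔ HasSmallSum T) ∧
    (AllPowersInjective R 𝒯 M ↔ HasRelation R T) ∧ (AllPowersInjective R 𝒯 M ↔ SlowGrowth R T) := by
  have hp := SchurChain.par hM hT
  have h1 := inj_iff hU hM h𝒯 hA
  have h2 : AllPowersInjective R 𝒯 M → AllPowersInjective R 𝒯 T := fun h =>
    inj_of_split h𝒯 (SchurChain.split h𝒯 (split_of_inj hU hM h𝒯 hA h) hT)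
  have h3 : IsKimuraFinite T → AllPowersInjective R 𝒯 M := fun h =>
    h1.2 (kimura_of_built R hU hT.built h)
  exact ⟨⟨h2, fun h => h3 (kimura_of_inj hU hp h𝒯 h)⟩,
    ⟨fun h => (smallSum_iff hU).1 (kimura_of_inj hU hp h𝒯 (h2 h)),
      fun h => h3 ((smallSum_iff hU).2 h)⟩,
    ⟨fun h => relation_of_kimura hU hp (kimura_of_inj hU hp h𝒯 (h2 h)),
      fun h => h3 (kimura_of_relation hU h)⟩,
    ⟨fun h => slow_of_inj h𝒯 (h2 h), fun h => h3 (kimura_of_slow hU hp h)⟩⟩

/-- Without a condition on the cohomology. -/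
theorem nil_of_test (hU : UnitQ C) {M : C} (hM : R.par M = 𝟙 _) {T : C} (hT : IsTest M T)
    (h : IsKimuraFinite T ∨ HasSmallSum T ∨ HasRelation R T ∨ HasSlowPermutations R T ∨
      (SchurChain M T ∧ SlowGrowth R T)) (n : ℕ) (f : End (tp M n))
    (hf : R.H.map (f : tp M n ⟶ tp M n) = 0) : IsNilpotent f := by
  have hK : IsKimuraFinite T := by
    rcases h with h | h | h | h | ⟨h1, h2⟩
    · exact h
    · exact (smallSum_iff hU).2 h
    · exact kimura_of_relation hU h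
    · exact kimura_of_slowPerm hU h
    · exact kimura_of_slow hU (SchurChain.par hM h1) h2
  exact tp_homNil hU hM (kimura_of_test R hU hT hK) n f hf

end Pool.Agent.K3h30.TO
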